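import Mathlib

set_option autoImplicit false

/-! Cylinders, the leaf lemma. -/

namespace Pool.Agent.H85T

open Finset

/-- The edges of the complete tripartite graph with three parts of `n` vertices. -/
abbrev Edge (n : ℕ) := Fin 3 × Fin n × Fin n

variable {n p : ℕ}

/-- functions which agree with `y` on `D` -/
def Cyl {E : Type} [Fintype E] [DecidableEq E] (D : Finset E) (y : E → Fin p) :
    Finset (E → Fin p) :=
  Fintype.piFinset (fun e => if e ∈ D then {y e} else univ)

section
variable {E : Type} [Fintype E] [DecidableEq E]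

theorem mem_Cyl {D : Finset E} {y z : E → Fin p} : z ∈ Cyl D y ↔ ∀ e ∈ D, z e = y e := by
  unfold Cyl
  rw [Fintype.mem_piFinset]
  constructor
  · intro h e he
    have := h e
    rw [if_pos he, mem_singleton] at this
    exact this
  · intro h e
    by_cases he : e ∈ D
    · rw [if_pos he, mem_singleton]; exact h e he
    · rw [if_neg he]; exact mem_univ _

theorem card_Cyl (D : Finset E) (y : E → Fin p) : (Cyl D y).card = p ^ (Dᶜ).card := by
  unfold Cyl
  rw [Fintype.card_piFinset]
  have : ∀ e : E, (if e ∈ D then ({y e} : Finset (Fin p)) else univ).card =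
      if e ∈ D then 1 else p := by
    intro e
    split_ifs <;> simp
  rw [prod_congr rfl fun e _ => this e, Finset.prod_ite]
  simp only [prod_const_one, one_mul, prod_const]
  congr 2
  ext e
  simp

/-- Conditioning on more coordinates. -/
theorem refine_le (hp : 0 < p) {D D' : Finset E} (hD : D ⊆ D') (y0 : E → Fin p)
    (Φ : (E → Fin p) → Prop) [DecidablePred Φ] (ε : ℝ)
    (h : ∀ y' ∈ Cyl D y0, (((Cyl D' y').filter Φ).card : ℝ) ≤ ε * (Cyl D' y').card) :
    (((Cyl D y0).filter Φ).card : ℝ) ≤ ε * (Cyl D y0).card := by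
  have hq : (0 : ℝ) < (p : ℝ) ^ (D'ᶜ).card := by positivity
  have h1 : ∑ y' ∈ Cyl D y0, ((Cyl D' y').filter Φ).card =
      ((Cyl D y0).filter Φ).card * p ^ (D'ᶜ).card := by
    have e1 : ∀ y' ∈ Cyl D y0, ((Cyl D' y').filter Φ).card =
        ∑ y ∈ (Cyl D y0).filter Φ, if y' ∈ Cyl D' y then 1 else 0 := by
      intro y' hy'
      rw [← card_filter]
      congr 1
      ext y
      simp only [mem_filter, mem_Cyl] at hy' ⊢
      constructor
      · rintro ⟨h1, h2⟩
        exact ⟨⟨fun e he => (h1 e (hD he)).trans (hy' e he), h2⟩, fun e he => (h1 e he).symm⟩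
      · rintro ⟨⟨-, h2⟩, h3⟩
        exact ⟨fun e he => (h3 e he).symm, h2⟩
    rw [sum_congr rfl e1, sum_comm]
    rw [← smul_eq_mul, ← sum_const]
    refine sum_congr rfl fun y hy => ?_
    rw [← card_filter, ← card_Cyl D' y]
    congr 1
    ext z
    rw [mem_filter, mem_Cyl, mem_Cyl]
    rw [mem_filter, mem_Cyl] at hy
    constructor
    · exact fun h => h.2
    · exact fun h => ⟨fun e he => (h e (hD he)).trans (hy.1 e he), h⟩
  have h2 : (∑ y' ∈ Cyl D y0, (((Cyl D' y').filter Φ).card : ℝ)) ≤
      ∑ y' ∈ Cyl D y0, ε * (Cyl D' y').card := sum_le_sum h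
  have h3 : (∑ y' ∈ Cyl D y0, (((Cyl D' y').filter Φ).card : ℝ)) =
      (((Cyl D y0).filter Φ).card : ℝ) * (p : ℝ) ^ (D'ᶜ).card := by
    exact_mod_cast h1
  have h4 : ∑ y' ∈ Cyl D y0, ε * ((Cyl D' y').card : ℝ) =
      ε * (Cyl D y0).card * (p : ℝ) ^ (D'ᶜ).card := by
    have : ∀ y' ∈ Cyl D y0, ε * ((Cyl D' y').card : ℝ) = ε * (p : ℝ) ^ (D'ᶜ).card := by
      intro y' _
      rw [card_Cyl]
      push_cast
      rfl
    rw [sum_congr rfl this, sum_const, nsmul_eq_mul]
    ring
  rw [h3, h4] at h2
  exact le_of_mul_le_mul_right h2 hq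

end

/-- the pair `(i, j)` is in no zero triangle -/
def NoHit (y : Edge n → Fin p) (i j : Fin n) : Prop :=
  ∀ k, y (1, j, k) ≠ (y (2, i, k)).rev

instance (y : Edge n → Fin p) (i j : Fin n) : Decidable (NoHit y i j) := by
  unfold NoHit; infer_instance

/-- no value occurs too often in a column -/
def Typ (L : ℕ) (y : Edge n → Fin p) : Prop :=
  (∀ k v, (univ.filter fun j => y (1, j, k) = v).card ≤ L) ∧
    ∀ k v, (univ.filter fun i => y (2, i, k) = v).card ≤ L

instance (L : ℕ) (y : Edge n → Fin p) : Decidable (Typ L y) := by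
  unfold Typ; infer_instance

/-- General bound for one half: the coordinates outside of `D` are free, `V e` has to be avoided. -/
theorem half {E : Type} [Fintype E] [DecidableEq E] (hp : 0 < p) (D : Finset E) (y : E → Fin p)
    (V : E → Finset (Fin p)) (Φ : (E → Fin p) → Prop) [DecidablePred Φ]
    (hΦ : ∀ z ∈ Cyl D y, Φ z → ∀ e, e ∉ D → z e ∉ V e) (u : ℝ)
    (hu : u ≤ ∑ e ∈ Dᶜ, ((V e).card : ℝ) / p) :
    (((Cyl D y).filter Φ).card : ℝ) ≤ Real.exp (-u) * (Cyl D y).card := by
  have hsub : (Cyl D y).filter Φ ⊆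
      Fintype.piFinset (fun e => if e ∈ D then {y e} else univ \ V e) := by
    intro z hz
    rw [mem_filter] at hz
    rw [Fintype.mem_piFinset]
    intro e
    by_cases he : e ∈ D
    · rw [if_pos he, mem_singleton]; exact mem_Cyl.1 hz.1 e he
    · rw [if_neg he, mem_sdiff]; exact ⟨mem_univ _, hΦ z hz.1 hz.2 e he⟩
  have h1 : (((Cyl D y).filter Φ).card : ℝ) ≤ ∏ e ∈ Dᶜ, ((p : ℝ) - (V e).card) := by
    have h2 := card_le_card hsub
    rw [Fintype.card_piFinset] at h2
    have h3 : ∀ e : E, (if e ∈ D then ({y e} : Finset (Fin p)) else univ \ V e).card =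
        if e ∈ D then 1 else p - (V e).card := by
      intro e
      split_ifs
      · simp
      · rw [card_sdiff_of_subset (subset_univ _), card_univ, Fintype.card_fin]
    rw [prod_congr rfl fun e _ => h3 e, Finset.prod_ite] at h2
    simp only [prod_const_one, one_mul] at h2
    have h4 : (univ.filter fun e => e ∉ D) = Dᶜ := by ext e; simp
    rw [h4] at h2
    calc (((Cyl D y).filter Φ).card : ℝ) ≤ ((∏ e ∈ Dᶜ, (p - (V e).card) : ℕ) : ℝ) := by
          exact_mod_cast h2
      _ = ∏ e ∈ Dᶜ, ((p : ℝ) - (V e).card) := by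
          push_cast
          refine prod_congr rfl fun e _ => ?_
          rw [Nat.cast_sub]
          have := card_le_univ (V e)
          rwa [Fintype.card_fin] at this
  refine h1.trans ?_
  rw [card_Cyl]
  push_cast
  calc ∏ e ∈ Dᶜ, ((p : ℝ) - (V e).card)
      ≤ ∏ e ∈ Dᶜ, ((p : ℝ) * Real.exp (-(((V e).card : ℝ) / p))) := by
        refine prod_le_prod ?_ ?_
        · intro e _
          have := card_le_univ (V e)
          rw [Fintype.card_fin] at this
          have h5 : ((V e).card : ℝ) ≤ p := by exact_mod_cast this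
          linarith
        · intro e _
          have h5 := Real.add_one_le_exp (-(((V e).card : ℝ) / p))
          have hp' : (0 : ℝ) < p := by exact_mod_cast hp
          calc (p : ℝ) - (V e).card = p * (-(((V e).card : ℝ) / p) + 1) := by
                field_simp
                ring
            _ ≤ _ := mul_le_mul_of_nonneg_left h5 hp'.le
    _ = (p : ℝ) ^ (Dᶜ).card * Real.exp (-∑ e ∈ Dᶜ, ((V e).card : ℝ) / p) := by
        rw [prod_mul_distrib, prod_const, ← Real.exp_sum, sum_neg_distrib]
    _ ≤ (p : ℝ) ^ (Dᶜ).card * Real.exp (-u) := by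
        refine mul_le_mul_of_nonneg_left ?_ (by positivity)
        exact Real.exp_le_exp.2 (neg_le_neg hu)
    _ = _ := by ring

end Pool.Agent.H85T
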