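import Pool.Agent.H85T.A

set_option autoImplicit false

/-! The leaf lemma: few read cells leave many wedges unread. -/

namespace Pool.Agent.H85T

open Finset

variable {n p : ℕ}

/-- number of pairs of `M` whose cell `(1, j, k)` is not in `D`, summed over `k` -/
def U1 (D : Finset (Edge n)) (M : Finset (Fin n × Fin n)) : ℕ :=
  ∑ k : Fin n, (M.filter fun e => ((1 : Fin 3), e.2, k) ∉ D).card

/-- number of pairs of `M` whose cell `(2, i, k)` is not in `D`, summed over `k` -/
def U2 (D : Finset (Edge n)) (M : Finset (Fin n × Fin n)) : ℕ :=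
  ∑ k : Fin n, (M.filter fun e => ((2 : Fin 3), e.1, k) ∉ D).card

theorem two_mul_min_le {s x y f : ℕ} (h1 : f ≤ s * s) (h2 : f ≤ x * y) : 2 * f ≤ s * (x + y) := by
  by_contra hc
  rw [not_le] at hc
  have h3 : (s * (x + y)) * (s * (x + y)) < (2 * f) * (2 * f) :=
    Nat.mul_lt_mul_of_lt_of_lt hc hc
  have h4 : f * f ≤ (s * s) * (x * y) := Nat.mul_le_mul h1 h2
  have h5 : 4 * (x * y) ≤ (x + y) * (x + y) := by nlinarith [sq_nonneg ((x : ℤ) - y), Nat.zero_le x]
  nlinarith [Nat.mul_le_mul_left (s * s) h5]

theorem unread {D : Finset (Edge n)} {M : Finset (Fin n × Fin n)} {s : ℕ}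
    (hM : M.card = s * s) (hD : D.card ≤ s * n) :
    s * s * n ≤ 2 * (U1 D M + U2 D M) := by
  have hk : ∀ k : Fin n, 2 * (s * s) ≤ 2 * ((M.filter fun e => ((1 : Fin 3), e.2, k) ∉ D).card +
      (M.filter fun e => ((2 : Fin 3), e.1, k) ∉ D).card) +
      s * ((univ.filter fun j => ((1 : Fin 3), j, k) ∈ D).card +
        (univ.filter fun i => ((2 : Fin 3), i, k) ∈ D).card) := by
    intro k
    set F := M.filter fun e => ((1 : Fin 3), e.2, k) ∈ D ∧ ((2 : Fin 3), e.1, k) ∈ D with hF
    have h1 : F.card ≤ s * s := by rw [← hM]; exact card_filter_le _ _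
    have h2 : F.card ≤ (univ.filter fun j => ((1 : Fin 3), j, k) ∈ D).card *
        (univ.filter fun i => ((2 : Fin 3), i, k) ∈ D).card := by
      rw [mul_comm, ← card_product]
      refine card_le_card fun e he => ?_
      rw [hF, mem_filter] at he
      rw [mem_product, mem_filter, mem_filter]
      exact ⟨⟨mem_univ _, he.2.2⟩, mem_univ _, he.2.1⟩
    have h3 := two_mul_min_le h1 h2
    have h4 : M.card ≤ F.card + ((M.filter fun e => ((1 : Fin 3), e.2, k) ∉ D).card +
      (M.filter fun e => ((2 : Fin 3), e.1, k) ∉ D).card) := by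
      calc M.card ≤ (F ∪ ((M.filter fun e => ((1 : Fin 3), e.2, k) ∉ D) ∪
            (M.filter fun e => ((2 : Fin 3), e.1, k) ∉ D))).card := by
            refine card_le_card fun e he => ?_
            rw [mem_union, mem_union, hF, mem_filter, mem_filter, mem_filter]
            tauto
        _ ≤ _ := (card_union_le _ _).trans (Nat.add_le_add_left (card_union_le _ _) _)
    rw [hM] at h4
    omega
  have hsum := sum_le_sum fun k (_ : k ∈ (univ : Finset (Fin n))) => hk k
  simp only [sum_add_distrib, ← mul_sum, sum_const, card_univ, Fintype.card_fin,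
    smul_eq_mul] at hsum
  have hX : ∑ k : Fin n, (univ.filter fun j => ((1 : Fin 3), j, k) ∈ D).card +
      ∑ k : Fin n, (univ.filter fun i => ((2 : Fin 3), i, k) ∈ D).card ≤ D.card := by
    have e1 : ∀ c : Fin 3, ∑ k : Fin n, (univ.filter fun j => (c, j, k) ∈ D).card =
        (D.filter fun e => e.1 = c).card := by
      intro c
      rw [← card_sigma]
      refine card_bij (fun (a : (_ : Fin n) × Fin n) _ => ((c, a.2, a.1) : Edge n)) ?_ ?_ ?_
      · intro a ha
        rw [mem_sigma, mem_filter] at ha
        rw [mem_filter]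
        exact ⟨ha.2.2, rfl⟩
      · rintro ⟨a, b⟩ _ ⟨a', b'⟩ _ h
        simp only [Prod.mk.injEq, true_and] at h
        rw [h.1, h.2]
      · rintro ⟨c', j, k⟩ he
        rw [mem_filter] at he
        obtain ⟨he1, he2⟩ := he
        simp only at he2
        subst he2
        refine ⟨⟨k, j⟩, ?_, rfl⟩
        rw [mem_sigma, mem_filter]
        exact ⟨mem_univ _, mem_univ _, he1⟩
    rw [e1, e1, ← card_union_of_disjoint]
    · refine card_le_card fun e he => ?_
      rw [mem_union, mem_filter, mem_filter] at he
      rcases he with h | h <;> exact h.1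
    · rw [disjoint_left]
      intro e h1 h2
      rw [mem_filter] at h1 h2
      rw [h1.2] at h2
      exact absurd h2.2 (by decide)
  have h6 : s * (∑ k : Fin n, (univ.filter fun j => ((1 : Fin 3), j, k) ∈ D).card +
      ∑ k : Fin n, (univ.filter fun i => ((2 : Fin 3), i, k) ∈ D).card) ≤ s * (s * n) :=
    Nat.mul_le_mul_left _ (hX.trans hD)
  unfold U1 U2
  nlinarith

/-- the first half: the cells `(1, j, k)` outside of `D` are free -/
theorem leaf1 (hn : 0 < n) {L s : ℕ} (hL : 0 < L) {D : Finset (Edge n)}
    {M : Finset (Fin n × Fin n)} (hU : s * s * n ≤ 4 * U1 D M) (y0 : Edge n → Fin (4 * n)) :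
    (((Cyl D y0).filter fun y => Typ L y ∧ ∀ e ∈ M, NoHit y e.1 e.2).card : ℝ) ≤
      Real.exp (-((s * s : ℝ) / (16 * L))) * (Cyl D y0).card := by
  classical
  have hp : 0 < 4 * n := by omega
  set D' : Finset (Edge n) := D ∪ univ.filter (fun e => e.1 ≠ 1) with hD'
  refine refine_le hp (D' := D') subset_union_left y0 _ _ fun y' _ => ?_
  by_cases hT : ∀ k v, (univ.filter fun i => y' (2, i, k) = v).card ≤ L
  · refine half hp D' y' (fun e => (M.filter fun a => a.2 = e.2.1).image
      fun a => (y' (2, a.1, e.2.2)).rev) _ ?_ _ ?_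
    · rintro z hz ⟨-, h2⟩ e he hV
      rw [mem_image] at hV
      obtain ⟨a, ha, hav⟩ := hV
      rw [mem_filter] at ha
      have h3 := h2 a ha.1 e.2.2
      have he1 : e.1 = 1 := by
        by_contra hc
        exact he (mem_union_right _ (mem_filter.2 ⟨mem_univ _, hc⟩))
      have h4 : z (2, a.1, e.2.2) = y' (2, a.1, e.2.2) :=
        mem_Cyl.1 hz _ (mem_union_right _ (mem_filter.2
          ⟨mem_univ _, show (2 : Fin 3) ≠ 1 by decide⟩))
      rw [h4, ha.2, hav] at h3
      apply h3
      rw [← he1]
    · have hfib : ∀ e : Edge n, (M.filter fun a => a.2 = e.2.1).card ≤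
          L * ((M.filter fun a => a.2 = e.2.1).image
            fun a => (y' (2, a.1, e.2.2)).rev).card := by
        intro e
        refine card_le_mul_card_image _ _ ?_
        intro b _
        refine le_trans ?_ (hT e.2.2 b.rev)
        refine card_le_card_of_injOn (fun a => a.1) ?_ ?_
        · intro a ha
          rw [mem_coe, mem_filter] at ha
          rw [mem_coe, mem_filter]
          refine ⟨mem_univ _, ?_⟩
          rw [← ha.2, Fin.rev_rev]
        · intro a ha a' ha' h
          rw [mem_coe, mem_filter, mem_filter] at ha ha'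
          exact Prod.ext h (ha.1.2.trans ha'.1.2.symm)
      have hsum : U1 D M ≤ L * ∑ e ∈ D'ᶜ, ((M.filter fun a => a.2 = e.2.1).image
          fun a => (y' (2, a.1, e.2.2)).rev).card := by
        rw [mul_sum]
        refine le_trans ?_ (sum_le_sum fun e _ => hfib e)
        have h1 : U1 D M = ∑ k : Fin n, ∑ j : Fin n,
            if ((1 : Fin 3), j, k) ∉ D then (M.filter fun a => a.2 = j).card else 0 := by
          unfold U1
          refine sum_congr rfl fun k _ => ?_
          rw [card_eq_sum_card_fiberwise (f := fun a => a.2) (t := univ)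
            (fun a _ => mem_univ _)]
          refine sum_congr rfl fun j _ => ?_
          split_ifs with hj
          rotate_left
          · congr 1
            ext a
            simp only [mem_filter]
            constructor
            · rintro ⟨⟨h1, -⟩, h2⟩
              exact ⟨h1, h2⟩
            · rintro ⟨h1, h2⟩
              exact ⟨⟨h1, by rw [h2]; exact hj⟩, h2⟩
          · rw [card_eq_zero, filter_eq_empty_iff]
            intro a ha h
            rw [mem_filter] at ha
            rw [h] at ha
            exact ha.2 hj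
        rw [h1, ← sum_product', ← sum_filter]
        refine le_of_eq (sum_bij (fun (a : Fin n × Fin n) _ => ((1, a.2, a.1) : Edge n))
          ?_ ?_ ?_ ?_)
        · intro a ha
          rw [mem_filter] at ha
          rw [mem_compl, hD', mem_union, mem_filter]
          rintro (h | h)
          · exact ha.2 h
          · exact h.2 rfl
        · rintro ⟨a, b⟩ _ ⟨a', b'⟩ _ h
          simp only [Prod.mk.injEq, true_and] at h
          rw [h.1, h.2]
        · rintro ⟨c, j, k⟩ he
          rw [mem_compl, hD', mem_union, mem_filter, not_or, not_and, not_not] at he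
          have hc : c = 1 := he.2 (mem_univ _)
          subst hc
          refine ⟨(k, j), ?_, rfl⟩
          rw [mem_filter]
          exact ⟨mem_product.2 ⟨mem_univ _, mem_univ _⟩, he.1⟩
        · intro a _
          rfl
      have h5 : s * s * n ≤ 4 * (L * ∑ e ∈ D'ᶜ, ((M.filter fun a => a.2 = e.2.1).image
          fun a => (y' (2, a.1, e.2.2)).rev).card) :=
        hU.trans (Nat.mul_le_mul_left 4 hsum)
      have h6 : (s * s * n : ℝ) ≤ 4 * (L * ∑ e ∈ D'ᶜ, (((M.filter fun a => a.2 = e.2.1).image
          fun a => (y' (2, a.1, e.2.2)).rev).card : ℝ)) := by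
        exact_mod_cast h5
      have hL' : (0 : ℝ) < L := by exact_mod_cast hL
      have hn' : (0 : ℝ) < n := by exact_mod_cast hn
      rw [← sum_div]
      push_cast
      rw [div_le_div_iff₀ (by positivity) (by positivity)]
      nlinarith
  · have : (Cyl D' y').filter (fun y => Typ L y ∧ ∀ e ∈ M, NoHit y e.1 e.2) = ∅ := by
      rw [filter_eq_empty_iff]
      intro z hz h
      apply hT
      intro k v
      have h3 := h.1.2 k v
      have h4 : ∀ i, z (2, i, k) = y' (2, i, k) := fun i =>
        mem_Cyl.1 hz _ (mem_union_right _ (mem_filter.2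
          ⟨mem_univ _, show (2 : Fin 3) ≠ 1 by decide⟩))
      simp only [h4] at h3
      exact h3
    rw [this]
    simp only [card_empty, Nat.cast_zero]
    positivity

/-- the second half: the cells `(2, i, k)` outside of `D` are free -/
theorem leaf2 (hn : 0 < n) {L s : ℕ} (hL : 0 < L) {D : Finset (Edge n)}
    {M : Finset (Fin n × Fin n)} (hU : s * s * n ≤ 4 * U2 D M) (y0 : Edge n → Fin (4 * n)) :
    (((Cyl D y0).filter fun y => Typ L y ∧ ∀ e ∈ M, NoHit y e.1 e.2).card : ℝ) ≤
      Real.exp (-((s * s : ℝ) / (16 * L))) * (Cyl D y0).card := by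
  classical
  have hp : 0 < 4 * n := by omega
  set D' : Finset (Edge n) := D ∪ univ.filter (fun e => e.1 ≠ 2) with hD'
  refine refine_le hp (D' := D') subset_union_left y0 _ _ fun y' _ => ?_
  by_cases hT : ∀ k v, (univ.filter fun i => y' (1, i, k) = v).card ≤ L
  · refine half hp D' y' (fun e => (M.filter fun a => a.1 = e.2.1).image
      fun a => (y' (1, a.2, e.2.2)).rev) _ ?_ _ ?_
    · rintro z hz ⟨-, h2⟩ e he hV
      rw [mem_image] at hV
      obtain ⟨a, ha, hav⟩ := hV
      rw [mem_filter] at ha
      have h3 := h2 a ha.1 e.2.2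
      have he1 : e.1 = 2 := by
        by_contra hc
        exact he (mem_union_right _ (mem_filter.2 ⟨mem_univ _, hc⟩))
      have h4 : z (1, a.2, e.2.2) = y' (1, a.2, e.2.2) :=
        mem_Cyl.1 hz _ (mem_union_right _ (mem_filter.2
          ⟨mem_univ _, show (1 : Fin 3) ≠ 2 by decide⟩))
      rw [h4, ha.2] at h3
      apply h3
      rw [← he1, ← hav, Fin.rev_rev]
    · have hfib : ∀ e : Edge n, (M.filter fun a => a.1 = e.2.1).card ≤
          L * ((M.filter fun a => a.1 = e.2.1).image
            fun a => (y' (1, a.2, e.2.2)).rev).card := by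
        intro e
        refine card_le_mul_card_image _ _ ?_
        intro b _
        refine le_trans ?_ (hT e.2.2 b.rev)
        refine card_le_card_of_injOn (fun a => a.2) ?_ ?_
        · intro a ha
          rw [mem_coe, mem_filter] at ha
          rw [mem_coe, mem_filter]
          refine ⟨mem_univ _, ?_⟩
          rw [← ha.2, Fin.rev_rev]
        · intro a ha a' ha' h
          rw [mem_coe, mem_filter, mem_filter] at ha ha'
          exact Prod.ext (ha.1.2.trans ha'.1.2.symm) h
      have hsum : U2 D M ≤ L * ∑ e ∈ D'ᶜ, ((M.filter fun a => a.1 = e.2.1).image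
          fun a => (y' (1, a.2, e.2.2)).rev).card := by
        rw [mul_sum]
        refine le_trans ?_ (sum_le_sum fun e _ => hfib e)
        have h1 : U2 D M = ∑ k : Fin n, ∑ j : Fin n,
            if ((2 : Fin 3), j, k) ∉ D then (M.filter fun a => a.1 = j).card else 0 := by
          unfold U2
          refine sum_congr rfl fun k _ => ?_
          rw [card_eq_sum_card_fiberwise (f := fun a => a.1) (t := univ)
            (fun a _ => mem_univ _)]
          refine sum_congr rfl fun j _ => ?_
          split_ifs with hj
          rotate_left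
          · congr 1
            ext a
            simp only [mem_filter]
            constructor
            · rintro ⟨⟨h1, -⟩, h2⟩
              exact ⟨h1, h2⟩
            · rintro ⟨h1, h2⟩
              exact ⟨⟨h1, by rw [h2]; exact hj⟩, h2⟩
          · rw [card_eq_zero, filter_eq_empty_iff]
            intro a ha h
            rw [mem_filter] at ha
            rw [h] at ha
            exact ha.2 hj
        rw [h1, ← sum_product', ← sum_filter]
        refine le_of_eq (sum_bij (fun (a : Fin n × Fin n) _ => ((2, a.2, a.1) : Edge n))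
          ?_ ?_ ?_ ?_)
        · intro a ha
          rw [mem_filter] at ha
          rw [mem_compl, hD', mem_union, mem_filter]
          rintro (h | h)
          · exact ha.2 h
          · exact h.2 rfl
        · rintro ⟨a, b⟩ _ ⟨a', b'⟩ _ h
          simp only [Prod.mk.injEq, true_and] at h
          rw [h.1, h.2]
        · rintro ⟨c, j, k⟩ he
          rw [mem_compl, hD', mem_union, mem_filter, not_or, not_and, not_not] at he
          have hc : c = 2 := he.2 (mem_univ _)
          subst hc
          refine ⟨(k, j), ?_, rfl⟩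
          rw [mem_filter]
          exact ⟨mem_product.2 ⟨mem_univ _, mem_univ _⟩, he.1⟩
        · intro a _
          rfl
      have h5 : s * s * n ≤ 4 * (L * ∑ e ∈ D'ᶜ, ((M.filter fun a => a.1 = e.2.1).image
          fun a => (y' (1, a.2, e.2.2)).rev).card) :=
        hU.trans (Nat.mul_le_mul_left 4 hsum)
      have h6 : (s * s * n : ℝ) ≤ 4 * (L * ∑ e ∈ D'ᶜ, (((M.filter fun a => a.1 = e.2.1).image
          fun a => (y' (1, a.2, e.2.2)).rev).card : ℝ)) := by
        exact_mod_cast h5
      have hL' : (0 : ℝ) < L := by exact_mod_cast hL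
      have hn' : (0 : ℝ) < n := by exact_mod_cast hn
      rw [← sum_div]
      push_cast
      rw [div_le_div_iff₀ (by positivity) (by positivity)]
      nlinarith
  · have : (Cyl D' y').filter (fun y => Typ L y ∧ ∀ e ∈ M, NoHit y e.1 e.2) = ∅ := by
      rw [filter_eq_empty_iff]
      intro z hz h
      apply hT
      intro k v
      have h3 := h.1.1 k v
      have h4 : ∀ i, z (1, i, k) = y' (1, i, k) := fun i =>
        mem_Cyl.1 hz _ (mem_union_right _ (mem_filter.2
          ⟨mem_univ _, show (1 : Fin 3) ≠ 2 by decide⟩))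
      simp only [h4] at h3
      exact h3
    rw [this]
    simp only [card_empty, Nat.cast_zero]
    positivity

/-- **Leaf lemma.** -/
theorem leaf (hn : 0 < n) {L s : ℕ} (hL : 0 < L) {D : Finset (Edge n)}
    (hD : D.card ≤ s * n) (R : Finset (Fin n × Fin n)) (y0 : Edge n → Fin (4 * n)) :
    (((Cyl D y0).filter fun y => Typ L y ∧ s * s ≤ R.card ∧
      ∀ e ∈ R, NoHit y e.1 e.2).card : ℝ) ≤
      Real.exp (-((s * s : ℝ) / (16 * L))) * (Cyl D y0).card := by
  classical
  by_cases hR : s * s ≤ R.card
  · obtain ⟨M, hMR, hM⟩ := exists_subset_card_eq hR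
    have hsub : (((Cyl D y0).filter fun y => Typ L y ∧ s * s ≤ R.card ∧
        ∀ e ∈ R, NoHit y e.1 e.2).card : ℝ) ≤
        ((Cyl D y0).filter fun y => Typ L y ∧ ∀ e ∈ M, NoHit y e.1 e.2).card := by
      refine Nat.cast_le.2 (card_le_card fun y hy => ?_)
      rw [mem_filter] at hy ⊢
      exact ⟨hy.1, hy.2.1, fun e he => hy.2.2.2 e (hMR he)⟩
    refine hsub.trans ?_
    have hu := unread hM hD
    rcases le_total (U2 D M) (U1 D M) with h | h
    · exact leaf1 hn hL (by omega) y0
    · exact leaf2 hn hL (by omega) y0
  · have : (Cyl D y0).filter (fun y => Typ L y ∧ s * s ≤ R.card ∧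
        ∀ e ∈ R, NoHit y e.1 e.2) = ∅ := by
      rw [filter_eq_empty_iff]
      intro z _ h
      exact hR h.2.1
    rw [this]
    simp only [card_empty, Nat.cast_zero]
    positivity

end Pool.Agent.H85T
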