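import Pool.Agent.H85T.B

set_option autoImplicit false

/-! Most inputs are typical and have many pairs without zero triangle. -/

namespace Pool.Agent.H85T

open Finset

variable {n : ℕ}

theorem card_bad (hn : 0 < n) (c : Fin 3) (L : ℕ) :
    ((univ.filter fun y : Edge n → Fin (4 * n) =>
      ¬ ∀ k v, (univ.filter fun i => y (c, i, k) = v).card ≤ L).card) * 4 ^ L ≤
      n ^ 2 * (4 * n) ^ Fintype.card (Edge n) := by
  classical
  have hsub : (univ.filter fun y : Edge n → Fin (4 * n) =>
      ¬ ∀ k v, (univ.filter fun i => y (c, i, k) = v).card ≤ L) ⊆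
      (univ ×ˢ powersetCard (L + 1) (univ : Finset (Fin n))).biUnion
        (fun a : (Fin n × Fin (4 * n)) × Finset (Fin n) =>
          Cyl (a.2.image fun i => ((c, i, a.1.1) : Edge n)) (fun _ => a.1.2)) := by
    intro y hy
    rw [mem_filter] at hy
    have h := hy.2
    push Not at h
    obtain ⟨k, v, hkv⟩ := h
    obtain ⟨I, hI, hIc⟩ := exists_subset_card_eq (Nat.succ_le_of_lt hkv)
    rw [mem_biUnion]
    refine ⟨((k, v), I), ?_, ?_⟩
    · rw [mem_product, mem_powersetCard]
      exact ⟨mem_univ _, subset_univ _, hIc⟩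
    · rw [mem_Cyl]
      intro e he
      rw [mem_image] at he
      obtain ⟨i, hi, rfl⟩ := he
      have := hI hi
      rw [mem_filter] at this
      exact this.2
  by_cases hLn : L + 1 ≤ n
  · have hE : L + 1 ≤ Fintype.card (Edge n) := by
      rw [Fintype.card_prod, Fintype.card_prod, Fintype.card_fin, Fintype.card_fin]
      nlinarith
    have h1 := card_le_card hsub
    have h2 := h1.trans card_biUnion_le
    have h3 : ∀ a ∈ (univ ×ˢ powersetCard (L + 1) (univ : Finset (Fin n)) :
        Finset ((Fin n × Fin (4 * n)) × Finset (Fin n))),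
        (Cyl (a.2.image fun i => ((c, i, a.1.1) : Edge n))
          (fun _ => a.1.2) : Finset (Edge n → Fin (4 * n))).card =
          (4 * n) ^ (Fintype.card (Edge n) - (L + 1)) := by
      intro a ha
      rw [mem_product, mem_powersetCard] at ha
      rw [card_Cyl, card_compl, card_image_of_injective, ha.2.2]
      intro i i' h
      simp only [Prod.mk.injEq, true_and, and_true] at h
      exact h
    rw [sum_congr rfl h3, sum_const, card_product, card_powersetCard, card_univ, card_univ,
      Fintype.card_prod, Fintype.card_fin, Fintype.card_fin, smul_eq_mul] at h2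
    have h4 : n.choose (L + 1) ≤ n ^ (L + 1) := Nat.choose_le_pow _ _
    have h5 : (4 * n) ^ Fintype.card (Edge n) =
        (4 * n) ^ (L + 1) * (4 * n) ^ (Fintype.card (Edge n) - (L + 1)) := by
      rw [← pow_add]
      congr 1
      omega
    have h6 : (univ.filter fun y : Edge n → Fin (4 * n) =>
      ¬ ∀ k v, (univ.filter fun i => y (c, i, k) = v).card ≤ L).card * 4 ^ (L + 1) ≤
        4 * (n ^ 2 * (4 * n) ^ Fintype.card (Edge n)) := by
      calc _ ≤ (n * (4 * n) * n.choose (L + 1) *
            (4 * n) ^ (Fintype.card (Edge n) - (L + 1))) * 4 ^ (L + 1) :=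
            Nat.mul_le_mul_right _ h2
        _ ≤ (n * (4 * n) * n ^ (L + 1) *
            (4 * n) ^ (Fintype.card (Edge n) - (L + 1))) * 4 ^ (L + 1) := by
            gcongr
        _ = 4 * (n ^ 2 * (4 * n) ^ Fintype.card (Edge n)) := by
            rw [h5, mul_pow 4 n (L + 1)]
            ring
    rw [pow_succ, ← mul_assoc] at h6
    exact Nat.le_of_mul_le_mul_right (h6.trans (le_of_eq (mul_comm _ _))) (by norm_num)
  · have hemp : (univ.filter fun y : Edge n → Fin (4 * n) =>
      ¬ ∀ k v, (univ.filter fun i => y (c, i, k) = v).card ≤ L) = ∅ := by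
      rw [filter_eq_empty_iff]
      intro y _ h
      apply h
      intro k v
      have := card_le_univ (univ.filter fun i => y (c, i, k) = v)
      rw [Fintype.card_fin] at this
      omega
    rw [hemp]
    simp

theorem card_not_typ (hn : 0 < n) {L : ℕ} (hL : 8 * n ≤ 2 ^ L) :
    32 * ((univ.filter fun y : Edge n → Fin (4 * n) => ¬ Typ L y).card) ≤
      (4 * n) ^ Fintype.card (Edge n) := by
  classical
  have h1 := card_bad hn 1 L
  have h2 := card_bad hn 2 L
  have hsub : (univ.filter fun y : Edge n → Fin (4 * n) => ¬ Typ L y) ⊆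
      (univ.filter fun y : Edge n → Fin (4 * n) =>
        ¬ ∀ k v, (univ.filter fun i => y (1, i, k) = v).card ≤ L) ∪
      (univ.filter fun y : Edge n → Fin (4 * n) =>
        ¬ ∀ k v, (univ.filter fun i => y (2, i, k) = v).card ≤ L) := by
    intro y hy
    rw [mem_union, mem_filter, mem_filter]
    rw [mem_filter] at hy
    by_contra hc
    apply hy.2
    unfold Typ
    constructor
    · by_contra h
      exact hc (Or.inl ⟨mem_univ _, h⟩)
    · by_contra h
      exact hc (Or.inr ⟨mem_univ _, h⟩)
  have h3 := (card_le_card hsub).trans (card_union_le _ _)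
  have h4 : 64 * n ^ 2 ≤ 4 ^ L := by
    calc 64 * n ^ 2 = (8 * n) ^ 2 := by ring
      _ ≤ (2 ^ L) ^ 2 := Nat.pow_le_pow_left hL 2
      _ = 4 ^ L := by rw [← pow_mul, mul_comm, pow_mul]; norm_num
  have h5 : (univ.filter fun y : Edge n → Fin (4 * n) => ¬ Typ L y).card * (64 * n ^ 2) ≤
      2 * (n ^ 2 * (4 * n) ^ Fintype.card (Edge n)) := by
    calc _ ≤ (univ.filter fun y : Edge n → Fin (4 * n) => ¬ Typ L y).card * 4 ^ L :=
          Nat.mul_le_mul_left _ h4
      _ ≤ _ := by
          have := Nat.mul_le_mul_right (4 ^ L) h3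
          rw [add_mul] at this
          omega
  have hn2 : 0 < 2 * n ^ 2 := by positivity
  have h6 : (2 * n ^ 2) * (32 * (univ.filter fun y : Edge n → Fin (4 * n) => ¬ Typ L y).card) ≤
      (2 * n ^ 2) * ((4 * n) ^ Fintype.card (Edge n)) := by
    calc _ = (univ.filter fun y : Edge n → Fin (4 * n) => ¬ Typ L y).card * (64 * n ^ 2) := by
          ring
      _ ≤ _ := h5
      _ = _ := by ring
  exact Nat.le_of_mul_le_mul_left h6 hn2

/-- the pairs in no zero triangle -/
def Free (y : Edge n → Fin (4 * n)) : Finset (Fin n × Fin n) :=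
  univ.filter fun e => NoHit y e.1 e.2

theorem card_hit (hn : 0 < n) (i j k : Fin n) :
    (4 * n) * (univ.filter fun y : Edge n → Fin (4 * n) =>
      y (1, j, k) = (y (2, i, k)).rev).card ≤ (4 * n) ^ Fintype.card (Edge n) := by
  classical
  have hp : 0 < 4 * n := by omega
  have : NeZero (4 * n) := ⟨by omega⟩
  have hcyl : Cyl (∅ : Finset (Edge n)) (fun _ => (0 : Fin (4 * n))) = univ := by
    ext y
    rw [mem_Cyl]
    simp
  have h := refine_le hp (D := (∅ : Finset (Edge n))) (D' := {(1, j, k)}ᶜ) (empty_subset _)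
    (fun _ => (0 : Fin (4 * n)))
    (fun y => y (1, j, k) = (y (2, i, k)).rev) (1 / (4 * n : ℝ)) ?_
  · rw [hcyl, card_univ, Fintype.card_fun, Fintype.card_fin] at h
    have hn' : (0 : ℝ) < n := by exact_mod_cast hn
    rw [one_div_mul_eq_div, le_div_iff₀ (by positivity)] at h
    have h2 : (4 * n : ℝ) * ((univ.filter fun y : Edge n → Fin (4 * n) =>
      y (1, j, k) = (y (2, i, k)).rev).card : ℝ) ≤
        (((4 * n) ^ Fintype.card (Edge n) : ℕ) : ℝ) := by
      rw [mul_comm]; exact h
    exact_mod_cast h2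
  · intro y' _
    rw [card_Cyl, compl_compl, card_singleton, pow_one]
    push_cast
    have hn' : (0 : ℝ) < n := by exact_mod_cast hn
    rw [one_div, inv_mul_cancel₀ (by positivity)]
    have h1 : ((Cyl {(1, j, k)}ᶜ y').filter
        fun y : Edge n → Fin (4 * n) => y (1, j, k) = (y (2, i, k)).rev).card ≤ 1 := by
      rw [card_le_one]
      intro a ha b hb
      rw [mem_filter, mem_Cyl] at ha hb
      have h2 : ∀ z : Edge n → Fin (4 * n), (∀ e ∈ ({(1, j, k)}ᶜ : Finset (Edge n)), z e = y' e) →
          z (2, i, k) = y' (2, i, k) := fun z hz => hz _ (by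
            rw [mem_compl, mem_singleton]
            intro h
            have := congrArg Prod.fst h
            exact absurd (show (2 : Fin 3) = 1 from this) (by decide))
      funext e
      by_cases he : e = (1, j, k)
      · rw [he, ha.2, hb.2, h2 a ha.1, h2 b hb.1]
      · have he' : e ∈ ({(1, j, k)}ᶜ : Finset (Edge n)) := by
          rw [mem_compl, mem_singleton]; exact he
        rw [ha.1 e he', hb.1 e he']
    exact_mod_cast h1

theorem card_few (hn : 0 < n) :
    3 * ((univ.filter fun y : Edge n → Fin (4 * n) => 4 * (Free y).card ≤ n ^ 2).card) ≤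
      (4 * n) ^ Fintype.card (Edge n) := by
  classical
  set Y := (univ : Finset (Edge n → Fin (4 * n))) with hY
  have h1 : ∀ y : Edge n → Fin (4 * n), n ^ 2 ≤ (Free y).card +
      ∑ a : Fin n × Fin n × Fin n, if y (1, a.2.1, a.2.2) = (y (2, a.1, a.2.2)).rev then 1 else 0 := by
    intro y
    have h2 : n ^ 2 = (Free y).card + (univ.filter fun e : Fin n × Fin n => ¬ NoHit y e.1 e.2).card := by
      unfold Free
      rw [card_filter_add_card_filter_not, card_univ, Fintype.card_prod, Fintype.card_fin, sq]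
    rw [← card_filter]
    have h3 : (univ.filter fun e : Fin n × Fin n => ¬ NoHit y e.1 e.2).card ≤
        (univ.filter fun a : Fin n × Fin n × Fin n =>
          y (1, a.2.1, a.2.2) = (y (2, a.1, a.2.2)).rev).card := by
      have h4 : (univ.filter fun e : Fin n × Fin n => ¬ NoHit y e.1 e.2) ⊆
          (univ.filter fun a : Fin n × Fin n × Fin n =>
          y (1, a.2.1, a.2.2) = (y (2, a.1, a.2.2)).rev).image fun a => (a.1, a.2.1) := by
        rintro ⟨i, j⟩ he
        rw [mem_filter] at he
        have h5 := he.2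
        unfold NoHit at h5
        push Not at h5
        obtain ⟨k, hk⟩ := h5
        rw [mem_image]
        exact ⟨(i, j, k), mem_filter.2 ⟨mem_univ _, hk⟩, rfl⟩
      exact (card_le_card h4).trans card_image_le
    omega
  have h2 : 4 * ∑ y ∈ Y, ∑ a : Fin n × Fin n × Fin n,
      (if y (1, a.2.1, a.2.2) = (y (2, a.1, a.2.2)).rev then 1 else 0) ≤
        n ^ 2 * (4 * n) ^ Fintype.card (Edge n) := by
    rw [sum_comm]
    have h3 : ∀ a : Fin n × Fin n × Fin n, (4 * n) * ∑ y ∈ Y,
        (if y (1, a.2.1, a.2.2) = (y (2, a.1, a.2.2)).rev then 1 else 0) ≤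
          (4 * n) ^ Fintype.card (Edge n) := by
      intro a
      rw [← card_filter]
      exact card_hit hn a.1 a.2.1 a.2.2
    have h4 := sum_le_sum fun a (_ : a ∈ (univ : Finset (Fin n × Fin n × Fin n))) => h3 a
    rw [← mul_sum, sum_const, card_univ, Fintype.card_prod, Fintype.card_prod, Fintype.card_fin,
      smul_eq_mul] at h4
    have h5 : n * (4 * ∑ a : Fin n × Fin n × Fin n, ∑ y ∈ Y,
        (if y (1, a.2.1, a.2.2) = (y (2, a.1, a.2.2)).rev then 1 else 0)) ≤
        n * (n ^ 2 * (4 * n) ^ Fintype.card (Edge n)) := by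
      calc _ = (4 * n) * ∑ a : Fin n × Fin n × Fin n, ∑ y ∈ Y,
            (if y (1, a.2.1, a.2.2) = (y (2, a.1, a.2.2)).rev then 1 else 0) := by ring
        _ ≤ _ := h4
        _ = _ := by ring
    exact Nat.le_of_mul_le_mul_left h5 hn
  have h6 : (3 * n ^ 2) * (Y.filter fun y : Edge n → Fin (4 * n) => 4 * (Free y).card ≤ n ^ 2).card ≤
      4 * ∑ y ∈ Y, ∑ a : Fin n × Fin n × Fin n,
      (if y (1, a.2.1, a.2.2) = (y (2, a.1, a.2.2)).rev then 1 else 0) := by
    rw [mul_comm, ← smul_eq_mul, ← sum_const, mul_sum]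
    refine (sum_le_sum fun y hy => ?_).trans
      (sum_le_sum_of_subset_of_nonneg (filter_subset _ _) fun _ _ _ => Nat.zero_le _)
    rw [mem_filter] at hy
    have := h1 y
    omega
  have hn2 : 0 < n ^ 2 := by positivity
  have h7 : n ^ 2 * (3 * (Y.filter fun y : Edge n → Fin (4 * n) =>
      4 * (Free y).card ≤ n ^ 2).card) ≤ n ^ 2 * (4 * n) ^ Fintype.card (Edge n) := by
    calc _ = (3 * n ^ 2) * (Y.filter fun y : Edge n → Fin (4 * n) =>
          4 * (Free y).card ≤ n ^ 2).card := by ring
      _ ≤ _ := h6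
      _ ≤ _ := h2
  exact Nat.le_of_mul_le_mul_left h7 hn2

end Pool.Agent.H85T
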